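import Pool.Agent.H9.TC.V

/-!
Iterated van der Corput inside a cell (project TM4, problem MP_b6022c_nt): the average over a finite
family `n : Om -> Z` of integers which is almost invariant under some shifts.
-/

set_option autoImplicit false

namespace Pool.Agent.H98.TM4

open Finset Pool.Agent.H9.TC

/-- On the family `n w`, `w` in `Om`, the shift by `t` costs at most `ρ`. -/
def Cost {ι : Type*} (Om : Finset ι) (n : ι → ℤ) (t : ℤ) (ρ : ℝ) : Prop :=
  ∀ g : ℤ → ℝ, (∀ x, |g x| ≤ 1) →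
    |∑ w ∈ Om, g (n w) - ∑ w ∈ Om, g (n w + t)| ≤ ρ * Om.card

theorem Cost.mono {ι : Type*} {Om : Finset ι} {n : ι → ℤ} {t : ℤ} {ρ ρ' : ℝ}
    (h : Cost Om n t ρ) (hρ : ρ ≤ ρ') : Cost Om n t ρ' := fun g hg =>
  (h g hg).trans (mul_le_mul_of_nonneg_right hρ (Nat.cast_nonneg _))

theorem Cost.zero {ι : Type*} (Om : Finset ι) (n : ι → ℤ) : Cost Om n 0 0 := by
  intro g _
  simp

theorem Cost.add {ι : Type*} {Om : Finset ι} {n : ι → ℤ} {t t' : ℤ} {ρ ρ' : ℝ}
    (h : Cost Om n t ρ) (h' : Cost Om n t' ρ') : Cost Om n (t + t') (ρ + ρ') := by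
  intro g hg
  have h1 := h g hg
  have h2 := h' (fun x => g (x + t)) (fun x => hg _)
  have e : ∀ w, n w + (t + t') = n w + t' + t := fun w => by ring
  simp only [e]
  rw [abs_le] at *
  constructor <;> linarith [h1.1, h1.2, h2.1, h2.2]

theorem Cost.neg {ι : Type*} {Om : Finset ι} {n : ι → ℤ} {t : ℤ} {ρ : ℝ}
    (h : Cost Om n t ρ) : Cost Om n (-t) ρ := by
  intro g hg
  have h2 := h (fun x => g (x + -t)) (fun x => hg _)
  have e : ∀ w, n w + t + -t = n w := fun w => by ring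
  simp only [e] at h2
  rw [abs_sub_comm]
  exact h2

theorem Cost.nat_mul {ι : Type*} {Om : Finset ι} {n : ι → ℤ} {t : ℤ} {ρ : ℝ}
    (h : Cost Om n t ρ) (a : ℕ) : Cost Om n ((a : ℤ) * t) (a * ρ) := by
  induction a with
  | zero => simpa using Cost.zero Om n
  | succ a ih =>
    have := ih.add h
    convert this using 1
    · push_cast; ring
    · push_cast; ring

theorem sum_nat_mul_le (J : ℕ) (ρ : ℝ) (hρ : 0 ≤ ρ) :
    ∑ a ∈ range J, (a : ℝ) * ρ ≤ (J : ℝ) ^ 2 * (ρ / 2) := by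
  rw [← Finset.sum_mul]
  have h := sum_two_mul_le J
  rw [← Finset.mul_sum] at h
  nlinarith

theorem close {ι κ : Type*} (X : Finset κ) (Om : Finset ι) (n : ι → ℤ) (F : κ → ℤ → ℝ)
    (hF : ∀ x m, |F x m| ≤ 1) (t : ℤ) (ρ : ℝ) (hρ : 0 ≤ ρ) (ht : Cost Om n t ρ) (J : ℕ) :
    |(J : ℝ) * (∑ x ∈ X, ∑ w ∈ Om, F x (n w)) -
      ∑ x ∈ X, ∑ w ∈ Om, ∑ a ∈ range J, F x (n w + a * t)| ≤
      X.card * ((J : ℝ) ^ 2 * (ρ / 2) * Om.card) := by
  rw [Finset.mul_sum, ← Finset.sum_sub_distrib]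
  refine abs_sum_le_card X _ _ fun x _ => ?_
  rw [Finset.sum_comm]
  have h1 : (J : ℝ) * ∑ w ∈ Om, F x (n w) = ∑ _a ∈ range J, ∑ w ∈ Om, F x (n w) := by
    rw [Finset.sum_const, Finset.card_range, nsmul_eq_mul]
  rw [h1, ← Finset.sum_sub_distrib]
  refine (Finset.abs_sum_le_sum_abs _ _).trans ?_
  have h2 : ∀ a ∈ range J, |∑ w ∈ Om, F x (n w) - ∑ w ∈ Om, F x (n w + a * t)| ≤
      (a : ℝ) * ρ * Om.card := fun a _ => (ht.nat_mul a) (F x) (hF x)
  refine (Finset.sum_le_sum h2).trans ?_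
  rw [← Finset.sum_mul]
  exact mul_le_mul_of_nonneg_right (sum_nat_mul_le J ρ hρ) (Nat.cast_nonneg _)

theorem cs {ι κ : Type*} (X : Finset κ) (Om : Finset ι) (n : ι → ℤ) (F : κ → ℤ → ℝ) (t : ℤ)
    (J : ℕ) :
    (∑ x ∈ X, ∑ w ∈ Om, ∑ a ∈ range J, F x (n w + a * t)) ^ 2 ≤
      ((Om.card : ℝ) * X.card) * ∑ x ∈ X, ∑ a ∈ range J, ∑ b ∈ range J, ∑ w ∈ Om,
        F x (n w + a * t) * F x (n w + b * t) := by
  have h1 : ∑ x ∈ X, ∑ w ∈ Om, ∑ a ∈ range J, F x (n w + a * t) =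
      ∑ p ∈ X ×ˢ Om, ∑ a ∈ range J, F p.1 (n p.2 + a * t) := by
    rw [Finset.sum_product]
  have h2 : ∑ x ∈ X, ∑ a ∈ range J, ∑ b ∈ range J, ∑ w ∈ Om,
        F x (n w + a * t) * F x (n w + b * t) =
      ∑ p ∈ X ×ˢ Om, (∑ a ∈ range J, F p.1 (n p.2 + a * t)) ^ 2 := by
    rw [Finset.sum_product]
    refine Finset.sum_congr rfl fun x _ => ?_
    have h3 : ∀ w ∈ Om, (∑ a ∈ range J, F x (n w + a * t)) ^ 2 =
        ∑ a ∈ range J, ∑ b ∈ range J, F x (n w + a * t) * F x (n w + b * t) := by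
      intro w _
      rw [sq, Finset.sum_mul_sum]
    symm
    rw [Finset.sum_congr rfl h3, Finset.sum_comm]
    refine Finset.sum_congr rfl fun a _ => ?_
    rw [Finset.sum_comm]
  rw [h1, h2]
  refine (sq_sum_le_card_mul_sum_sq).trans ?_
  rw [Finset.card_product]
  push_cast
  rw [mul_comm (X.card : ℝ)]

theorem step {ι κ : Type*} (X : Finset κ) (hX : 0 < X.card) (Om : Finset ι) (hOm : 0 < Om.card)
    (n : ι → ℤ) (F : κ → ℤ → ℝ) (hF : ∀ x m, |F x m| ≤ 1) (t : ℤ) (ρ : ℝ) (hρ : 0 ≤ ρ)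
    (ht : Cost Om n t ρ) (J : ℕ) (hJ : 1 ≤ J) :
    (|∑ x ∈ X, ∑ w ∈ Om, F x (n w)| / (Om.card * X.card)) ^ 2 ≤
      |∑ x ∈ X, ∑ a ∈ range J, ∑ b ∈ range J, ∑ w ∈ Om,
        F x (n w + a * t) * F x (n w + b * t)| / (Om.card * (X.card * J * J)) +
        2 * (J * (ρ / 2)) := by
  set P := ∑ x ∈ X, ∑ w ∈ Om, F x (n w) with hP
  set Q := ∑ x ∈ X, ∑ w ∈ Om, ∑ a ∈ range J, F x (n w + a * t) with hQ
  set R := ∑ x ∈ X, ∑ a ∈ range J, ∑ b ∈ range J, ∑ w ∈ Om,
        F x (n w + a * t) * F x (n w + b * t) with hR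
  have hXr : (0 : ℝ) < X.card := by exact_mod_cast hX
  have hJr : (0 : ℝ) < J := by exact_mod_cast hJ
  have hMr : (0 : ℝ) < Om.card := by exact_mod_cast hOm
  have h1 : |(J : ℝ) * P - Q| ≤ X.card * ((J : ℝ) ^ 2 * (ρ / 2) * Om.card) :=
    close X Om n F hF t ρ hρ ht J
  have h2 : Q ^ 2 ≤ ((Om.card : ℝ) * X.card) * R := cs X Om n F t J
  set M : ℝ := (Om.card : ℝ) with hM
  have hP1 : |P| ≤ M * X.card := by
    have := abs_sum_le_card X (fun x => ∑ w ∈ Om, F x (n w)) M (fun x _ => by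
      have := abs_sum_le_card Om (fun w => F x (n w)) 1 (fun m _ => hF x _)
      rwa [mul_one] at this)
    rw [mul_comm]
    exact this
  have hQ1 : |Q| ≤ M * X.card * J := by
    have := abs_sum_le_card X (fun x => ∑ w ∈ Om, ∑ a ∈ range J, F x (n w + a * t))
      (M * J) (fun x _ => by
      have := abs_sum_le_card Om (fun w => ∑ a ∈ range J, F x (n w + a * t)) J
        (fun m _ => by
          have := abs_sum_le_card (range J) (fun a : ℕ => F x (n m + a * t)) 1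
            (fun a _ => hF x _)
          rwa [Finset.card_range, mul_one] at this)
      exact this)
    calc |Q| ≤ _ := this
      _ = _ := by ring
  -- normalised
  set A := |P| / (M * X.card) with hA
  set A' := |Q| / (M * X.card * J) with hA'
  have hA1 : A ≤ 1 := by rw [hA, div_le_one (by positivity)]; exact hP1
  have hA'1 : A' ≤ 1 := by rw [hA', div_le_one (by positivity)]; exact hQ1
  have hA0 : 0 ≤ A := by positivity
  have hA'0 : 0 ≤ A' := by positivity
  have hAA : A - A' ≤ J * (ρ / 2) := by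
    rw [hA, hA', div_sub_div _ _ (by positivity) (by positivity), div_le_iff₀ (by positivity)]
    have h3 : (J : ℝ) * |P| - |Q| ≤ X.card * ((J : ℝ) ^ 2 * (ρ / 2) * M) := by
      refine le_trans ?_ h1
      have : (J : ℝ) * |P| = |(J : ℝ) * P| := by rw [abs_mul, abs_of_pos hJr]
      rw [this]
      exact abs_sub_abs_le_abs_sub _ _
    have h4 : (|P| * (M * X.card * J) - M * X.card * |Q|) =
        (M * X.card) * ((J : ℝ) * |P| - |Q|) := by ring
    rw [h4]
    calc (M * X.card : ℝ) * ((J : ℝ) * |P| - |Q|)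
        ≤ (M * X.card : ℝ) * (X.card * ((J : ℝ) ^ 2 * (ρ / 2) * M)) :=
          mul_le_mul_of_nonneg_left h3 (by positivity)
      _ = _ := by ring
  have hA'2 : A' ^ 2 ≤ |R| / (M * (X.card * J * J)) := by
    rw [hA', div_pow, sq_abs, div_le_div_iff₀ (by positivity) (by positivity)]
    have h5 : Q ^ 2 ≤ ((M : ℝ) * X.card) * |R| :=
      h2.trans (mul_le_mul_of_nonneg_left (le_abs_self R) (by positivity))
    calc Q ^ 2 * (M * (X.card * J * J)) ≤ (((M : ℝ) * X.card) * |R|) * (M * (X.card * J * J)) :=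
          mul_le_mul_of_nonneg_right h5 (by positivity)
      _ = _ := by ring
  have hd : (0 : ℝ) ≤ J * (ρ / 2) := by positivity
  have : A ^ 2 ≤ A' ^ 2 + 2 * (J * (ρ / 2)) := by
    by_cases h : A ≤ A'
    · nlinarith
    · push Not at h
      nlinarith
  linarith

theorem base {ι : Type*} (Om : Finset ι) (hOm : 0 < Om.card) (n : ι → ℤ) (f : ℤ → ℝ)
    (hf : ∀ x, |f x| ≤ 1) (t0 : ℤ) (t : Fin 0 → ℤ) (ρ0 : ℝ) (hρ0 : 0 ≤ ρ0)
    (ht0 : Cost Om n t0 ρ0) (J : ℕ) (S : ℝ) (hJ : 1 ≤ J) (hS : (J : ℝ) * (ρ0 / 2) ≤ S) :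
    |(∑ w ∈ Om, f (n w)) / Om.card| ^ (2 ^ 0) ≤
      |∑ j ∈ box 0 J, ∑ w ∈ Om, ∏ η : Fin 0 → Bool, f (n w + psi t0 t η j)| /
        (Om.card * (box 0 J).card) + 8 * 4 ^ 0 * S := by
  have hJr : (0 : ℝ) < J := by exact_mod_cast hJ
  have hMr : (0 : ℝ) < Om.card := by exact_mod_cast hOm
  have h1 := close ({()} : Finset Unit) Om n (fun _ => f) (fun _ => hf) t0 ρ0 hρ0 ht0 J
  simp only [Finset.sum_singleton, Finset.card_singleton, Nat.cast_one, one_mul] at h1
  have h2 : ∑ j ∈ box 0 J, ∑ w ∈ Om, ∏ η : Fin 0 → Bool, f (n w + psi t0 t η j) =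
      ∑ w ∈ Om, ∑ a ∈ range J, f (n w + a * t0) := by
    unfold Pool.Agent.H9.TC.box
    rw [Finset.sum_product, Finset.sum_comm (s := Om)]
    refine Finset.sum_congr rfl fun a _ => ?_
    rw [Fintype.piFinset_of_isEmpty, Fintype.sum_unique]
    simp [psi]
  have hSn : 0 ≤ S := le_trans (by positivity) hS
  rw [h2, box_card]
  set P := ∑ w ∈ Om, f (n w)
  set Q := ∑ w ∈ Om, ∑ a ∈ range J, f (n w + a * t0)
  set M : ℝ := (Om.card : ℝ)
  have h3 : (J : ℝ) * |P| ≤ |Q| + (J : ℝ) ^ 2 * (ρ0 / 2) * M := by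
    have : (J : ℝ) * |P| = |(J : ℝ) * P| := by rw [abs_mul, abs_of_pos hJr]
    rw [this]
    have := abs_sub_abs_le_abs_sub ((J : ℝ) * P) Q
    linarith
  have h4 : |P / M| ^ (2 ^ 0) = |P| / M := by
    rw [pow_zero, pow_one, abs_div, abs_of_pos hMr]
  have h5 : ((J * J ^ (0 * 2) : ℕ) : ℝ) = J := by simp
  rw [h4, h5]
  have h6 : |P| / M ≤ |Q| / (M * J) + S := by
    rw [div_add' _ _ _ (by positivity), div_le_div_iff₀ hMr (by positivity)]
    have h7 : (J : ℝ) * ((J : ℝ) * (ρ0 / 2)) ≤ J * S := mul_le_mul_of_nonneg_left hS hJr.le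
    have h8 : (J : ℝ) * |P| ≤ |Q| + J * S * M := by
      have := mul_le_mul_of_nonneg_right h7 hMr.le
      nlinarith
    nlinarith [mul_le_mul_of_nonneg_left h8 hMr.le]
  have h9 : S ≤ 8 * 4 ^ 0 * S := by
    norm_num
    linarith
  linarith

/-- **Iterated van der Corput on a family which is almost invariant under the shifts.** -/
theorem vC {ι : Type*} (Om : Finset ι) (hOm : 0 < Om.card) (n : ι → ℤ) : ∀ (k : ℕ) (f : ℤ → ℝ),
    (∀ x, |f x| ≤ 1) → ∀ (t0 : ℤ) (t : Fin k → ℤ) (ρ0 : ℝ) (ρ : Fin k → ℝ) (J : ℕ) (S : ℝ),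
    0 ≤ ρ0 → (∀ l, 0 ≤ ρ l) → Cost Om n t0 ρ0 → (∀ l, Cost Om n (t l) (ρ l)) →
    1 ≤ J → (J : ℝ) * (ρ0 + ∑ l, ρ l) ≤ 2 * S →
    |(∑ w ∈ Om, f (n w)) / Om.card| ^ (2 ^ k) ≤
      |∑ j ∈ box k J, ∑ w ∈ Om, ∏ η : Fin k → Bool, f (n w + psi t0 t η j)| /
        (Om.card * (box k J).card) + 8 * 4 ^ k * S := by
  intro k
  induction k with
  | zero =>
    intro f hf t0 t ρ0 ρ J S hρ0 _ ht0 _ hJ hS
    refine base Om hOm n f hf t0 t ρ0 hρ0 ht0 J S hJ ?_
    simp only [Finset.univ_eq_empty, Finset.sum_empty, add_zero] at hS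
    linarith
  | succ k ih =>
    intro f hf t0 t ρ0 ρ J S hρ0 hρ ht0 ht hJ hS
    have hJr : (0 : ℝ) < J := by exact_mod_cast hJ
    have hMr : (0 : ℝ) < Om.card := by exact_mod_cast hOm
    have hρs : 0 ≤ ∑ l : Fin k, ρ l.succ := Finset.sum_nonneg fun l _ => hρ _
    have hS1 : (J : ℝ) * (ρ0 + ∑ l : Fin k, ρ l.succ) + J * ρ 0 ≤ 2 * S := by
      rw [Fin.sum_univ_succ] at hS
      linarith
    have hS2 : (J : ℝ) * (ρ0 + ∑ l : Fin k, ρ l.succ) ≤ 2 * S :=
      le_trans (by linarith [mul_nonneg hJr.le (hρ 0)]) hS1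
    have hS3 : (J : ℝ) * (ρ 0 / 2) ≤ S := by
      have : (0 : ℝ) ≤ (J : ℝ) * (ρ0 + ∑ l : Fin k, ρ l.succ) := by positivity
      linarith
    have hS0 : 0 ≤ S := le_trans (by have := hρ 0; positivity) hS3
    have h0 := ih f hf t0 (fun l => t l.succ) ρ0 (fun l => ρ l.succ) J S hρ0 (fun l => hρ _) ht0
      (fun l => ht _) hJ hS2
    set a := |(∑ w ∈ Om, f (n w)) / Om.card| with ha
    have ha0 : 0 ≤ a := abs_nonneg _
    have ha1 : a ≤ 1 := by
      rw [ha, abs_div, abs_of_pos hMr, div_le_one hMr]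
      have := abs_sum_le_card Om (fun w => f (n w)) 1 (fun m _ => hf _)
      rwa [mul_one] at this
    have hcard : 0 < (box k J).card := by
      rw [box_card]
      positivity
    have hst := step (box k J) hcard Om hOm n
      (fun j m => ∏ η : Fin k → Bool, f (m + psi t0 (fun l => t l.succ) η j))
      (fun j m => abs_prod_le_one _ _ fun η _ => hf _) (t 0) (ρ 0) (hρ 0) (ht 0) J hJ
    have e1 : ∑ j ∈ box (k + 1) J, ∑ w ∈ Om,
        ∏ η : Fin (k + 1) → Bool, f (n w + psi t0 t η j) =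
        ∑ j ∈ box k J, ∑ a ∈ range J, ∑ b ∈ range J, ∑ w ∈ Om,
          (∏ η : Fin k → Bool, f (n w + a * t 0 + psi t0 (fun l => t l.succ) η j)) *
          ∏ η : Fin k → Bool, f (n w + b * t 0 + psi t0 (fun l => t l.succ) η j) := by
      rw [sum_box_succ]
      refine Finset.sum_congr rfl fun j _ => Finset.sum_congr rfl fun a _ =>
        Finset.sum_congr rfl fun b _ => Finset.sum_congr rfl fun m _ => ?_
      rw [prod_fun_succ]
      simp only [psi_ext]
      congr 1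
      · refine Finset.prod_congr rfl fun η _ => ?_
        congr 1
        simp only [Bool.false_eq_true, if_false]
        ring
      · refine Finset.prod_congr rfl fun η _ => ?_
        congr 1
        simp only [if_true]
        ring
    have e2 : ((Om.card : ℝ) * (box (k + 1) J).card) = (Om.card * ((box k J).card * J * J)) := by
      rw [box_card, box_card]
      push_cast
      ring
    rw [← e1, ← e2] at hst
    set A := |∑ j ∈ box k J, ∑ w ∈ Om,
      ∏ η : Fin k → Bool, f (n w + psi t0 (fun l => t l.succ) η j)| /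
        (Om.card * (box k J).card) with hA
    have hA0 : 0 ≤ A := by positivity
    have hA1 : A ≤ 1 := by
      have hc : (0 : ℝ) < (box k J).card := by exact_mod_cast hcard
      rw [hA, div_le_one (by positivity)]
      have := abs_sum_le_card (box k J) (fun j => ∑ w ∈ Om,
        ∏ η : Fin k → Bool, f (n w + psi t0 (fun l => t l.succ) η j)) Om.card (fun j _ => by
        have := abs_sum_le_card Om (fun w =>
          ∏ η : Fin k → Bool, f (n w + psi t0 (fun l => t l.succ) η j)) 1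
          (fun m _ => abs_prod_le_one _ _ fun η _ => hf _)
        rwa [mul_one] at this)
      rw [mul_comm]
      exact this
    have hB0 : 0 ≤ |∑ j ∈ box (k + 1) J, ∑ w ∈ Om,
        ∏ η : Fin (k + 1) → Bool, f (n w + psi t0 t η j)| /
          (Om.card * (box (k + 1) J).card) := by
      positivity
    set B := |∑ j ∈ box (k + 1) J, ∑ w ∈ Om,
        ∏ η : Fin (k + 1) → Bool, f (n w + psi t0 t η j)| / (Om.card * (box (k + 1) J).card)
    have hpow : a ^ (2 ^ (k + 1)) = (a ^ (2 ^ k)) ^ 2 := by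
      rw [pow_succ 2 k, pow_mul]
    have hak : a ^ (2 ^ k) ≤ 1 := pow_le_one₀ ha0 ha1
    have hak0 : 0 ≤ a ^ (2 ^ k) := by positivity
    rw [hpow]
    have hsm : S ≤ 4 ^ k * S := by
      have : (1 : ℝ) ≤ 4 ^ k := one_le_pow₀ (by norm_num)
      nlinarith
    have e3 : (8 * 4 ^ (k + 1) * S : ℝ) = 32 * (4 ^ k * S) := by ring
    have e4 : (8 * 4 ^ k * S : ℝ) = 8 * (4 ^ k * S) := by ring
    rw [e3]
    rw [e4] at h0
    set E : ℝ := 4 ^ k * S with hE
    have hE0 : 0 ≤ E := by positivity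
    by_cases hbig : 1 ≤ 8 * E
    · have : (a ^ (2 ^ k)) ^ 2 ≤ 1 := pow_le_one₀ hak0 hak
      linarith
    · push Not at hbig
      have h1 : (a ^ (2 ^ k)) ^ 2 ≤ (A + 8 * E) ^ 2 := pow_le_pow_left₀ hak0 h0 2
      nlinarith

/-! ### Counting -/

open Classical in
/-- a property of points holds about equally often at the shifted points -/
theorem Cost.count {ι : Type*} {Om : Finset ι} {n : ι → ℤ} {t : ℤ} {ρ : ℝ}
    (h : Cost Om n t ρ) (P : ℤ → Prop) :
    ((Om.filter fun w => P (n w + t)).card : ℝ) ≤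
      (Om.filter fun w => P (n w)).card + ρ * Om.card := by
  have h1 := h (fun x => if P x then 1 else 0) (fun x => by split_ifs <;> simp)
  simp only [Finset.sum_boole] at h1
  rw [abs_le] at h1
  linarith [h1.1, h1.2]

/-! ### The cell -/

/-- the cell `n0 + s + D x + 2^a m` -/
def cell (n0 : ℤ) (D a : ℕ) (w : ℕ × ℕ × ℕ) : ℤ := n0 + w.1 + D * w.2.1 + 2 ^ a * w.2.2

/-- its index set -/
def cellSet (S X M : ℕ) : Finset (ℕ × ℕ × ℕ) := range S ×ˢ range X ×ˢ range M

theorem cellSet_card (S X M : ℕ) : (cellSet S X M).card = S * (X * M) := by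
  unfold cellSet
  rw [Finset.card_product, Finset.card_product, Finset.card_range, Finset.card_range,
    Finset.card_range]

/-- the shifts by `h` -/
theorem cost_s (n0 : ℤ) (D a S X M : ℕ) (hS : 0 < S) (h : ℤ) :
    Cost (cellSet S X M) (cell n0 D a) h (2 * |(h : ℝ)| / S) := by
  intro g hg
  have hSr : (0 : ℝ) < S := by exact_mod_cast hS
  unfold cellSet
  have p1 : ∀ G : ℕ × ℕ × ℕ → ℝ, ∑ w ∈ range S ×ˢ (range X ×ˢ range M), G w =
      ∑ y ∈ range X ×ˢ range M, ∑ x ∈ range S, G (x, y) :=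
    fun G => Finset.sum_product_right _ _ _
  rw [p1, p1, ← Finset.sum_sub_distrib]
  have h1 : ∀ y ∈ range X ×ˢ range M, |∑ x ∈ range S, g (cell n0 D a (x, y)) -
      ∑ x ∈ range S, g (cell n0 D a (x, y) + h)| ≤ 2 * |(h : ℝ)| := by
    intro y _
    have := vdc_shift (fun x => g (x + (n0 + D * y.1 + 2 ^ a * y.2))) (fun x => hg _) S h
    have e1 : ∀ x : ℕ, g (cell n0 D a (x, y)) = g ((x : ℤ) + (n0 + D * y.1 + 2 ^ a * y.2)) := by
      intro x
      congr 1
      unfold cell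
      ring
    have e2 : ∀ x : ℕ, g (cell n0 D a (x, y) + h) =
        g ((x : ℤ) + h + (n0 + D * y.1 + 2 ^ a * y.2)) := by
      intro x
      congr 1
      unfold cell
      ring
    simp only [e1, e2]
    exact this
  refine (abs_sum_le_card _ _ _ h1).trans (le_of_eq ?_)
  have e3 : (((range S ×ˢ range X ×ˢ range M).card : ℕ) : ℝ) =
      S * ((range X ×ˢ range M).card : ℕ) := by
    rw [Finset.card_product, Finset.card_range]
    push_cast
    rfl
  rw [e3]
  field_simp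

/-- the shifts by `D t` -/
theorem cost_x (n0 : ℤ) (D a S X M : ℕ) (hX : 0 < X) (t : ℤ) :
    Cost (cellSet S X M) (cell n0 D a) (D * t) (2 * |(t : ℝ)| / X) := by
  intro g hg
  have hXr : (0 : ℝ) < X := by exact_mod_cast hX
  unfold cellSet
  rw [Finset.sum_product, Finset.sum_product, ← Finset.sum_sub_distrib]
  have h1 : ∀ s ∈ range S, |∑ y ∈ range X ×ˢ range M, g (cell n0 D a (s, y)) -
      ∑ y ∈ range X ×ˢ range M, g (cell n0 D a (s, y) + D * t)| ≤ M * (2 * |(t : ℝ)|) := by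
    intro s _
    rw [Finset.sum_product_right, Finset.sum_product_right, ← Finset.sum_sub_distrib]
    have h2 : ∀ m ∈ range M, |∑ x ∈ range X, g (cell n0 D a (s, (x, m))) -
        ∑ x ∈ range X, g (cell n0 D a (s, (x, m)) + D * t)| ≤ 2 * |(t : ℝ)| := by
      intro m _
      have := vdc_shift (fun x => g (D * x + (n0 + s + 2 ^ a * m))) (fun x => hg _) X t
      have e1 : ∀ x : ℕ, g (cell n0 D a (s, (x, m))) =
          g ((D : ℤ) * (x : ℤ) + (n0 + s + 2 ^ a * m)) := by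
        intro x
        congr 1
        unfold cell
        ring
      have e2 : ∀ x : ℕ, g (cell n0 D a (s, (x, m)) + D * t) =
          g ((D : ℤ) * ((x : ℤ) + t) + (n0 + s + 2 ^ a * m)) := by
        intro x
        congr 1
        unfold cell
        ring
      simp only [e1, e2]
      exact this
    have := abs_sum_le_card _ _ _ h2
    rwa [Finset.card_range] at this
  refine (abs_sum_le_card _ _ _ h1).trans (le_of_eq ?_)
  rw [Finset.card_product, Finset.card_product, Finset.card_range, Finset.card_range,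
    Finset.card_range]
  push_cast
  field_simp

end Pool.Agent.H98.TM4
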